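import Pool.Agent.GRP.F10

/-! # MP_ce48ae_pr : the escape probability of the greedy random walk is at least `log log n / (480 n)`

`IsGRW μ X`: under the probability measure `μ` the sequence `X` of `ℤ²`-valued random variables starts
at the origin and, given its history, crosses an edge chosen uniformly among the edges at the present
site which have not been crossed before, or among all four edges if there is no such edge. -/

namespace Pool.Agent.Results.MP_ce48ae_pr.EscapeLower

open MeasureTheory

/-- The probability that the greedy random walk reaches distance `n` (maximum norm) before it crosses an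
edge for the second time is at least `log (log n) / (480 n)`. -/
theorem result {Ω : Type*} [MeasurableSpace Ω] (μ : Measure Ω) [IsProbabilityMeasure μ]
    (X : ℕ → Ω → ℤ × ℤ) (hX : Pool.Agent.GRW.IsGRW μ X) (n : ℕ) (hn : 3 ≤ n) :
    ENNReal.ofReal (Real.log (Real.log n) / (480 * n)) ≤
      μ {ω | ∃ N, ((n : ℤ) ≤ |(X N ω).1| ∨ (n : ℤ) ≤ |(X N ω).2|) ∧
        ∀ i j, i < j → j < N → s(X i ω, X (i + 1) ω) ≠ s(X j ω, X (j + 1) ω)} :=
  Pool.Agent.GRP.escape_main hX n hn

end Pool.Agent.Results.MP_ce48ae_pr.EscapeLower
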