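import Pool.Agent.GRW.K8

/-! # MP_ce48ae_pr : the greedy random walk on `ℤ²` visits every discrete ray infinitely often

`IsGRW μ X`: under the probability measure `μ` the sequence `X` of `ℤ²`-valued random variables starts
at the origin and, given its history, crosses an edge chosen uniformly among the edges at the present
site which have not been crossed before, or among all four edges if there is no such edge. -/

namespace Pool.Agent.Results.MP_ce48ae_pr.EveryRay

open MeasureTheory

/-- Almost surely, for all `a` and all `v ≠ 0` in `ℤ²`, the greedy random walk visits the discrete ray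
`{a + k v : k = 0, 1, 2, ...}` infinitely often. -/
theorem result {Ω : Type*} [MeasurableSpace Ω] (μ : Measure Ω) [IsProbabilityMeasure μ]
    (X : ℕ → Ω → ℤ × ℤ) (hX : Pool.Agent.GRW.IsGRW μ X) :
    ∀ᵐ ω ∂μ, ∀ a v : ℤ × ℤ, v ≠ 0 → {n : ℕ | ∃ k : ℕ, X n ω = a + (k : ℤ) • v}.Infinite :=
  Pool.Agent.GRW.grw_main hX

end Pool.Agent.Results.MP_ce48ae_pr.EveryRay
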