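import Pool.Agent.GRP.E3

/-! # MP_ce48ae_pr : polynomial tail of the excursion of the greedy random walk from a line

`IsGRW μ X`: under the probability measure `μ` the sequence `X` of `ℤ²`-valued random variables starts
at the origin and, given its history, crosses an edge chosen uniformly among the edges at the present
site which have not been crossed before, or among all four edges if there is no such edge. -/

namespace Pool.Agent.Results.MP_ce48ae_pr.ExcursionTail

open MeasureTheory

/-- The probability that the greedy random walk reaches height `h` before its first return to the line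
`y = 0` is at most `64 h^(-1/21)`, and the probability that it reaches distance `h` (maximum norm) before this
return is at most `73000 h^(-1/126)`. -/
theorem result {Ω : Type*} [MeasurableSpace Ω] (μ : Measure Ω) [IsProbabilityMeasure μ]
    (X : ℕ → Ω → ℤ × ℤ) (hX : Pool.Agent.GRW.IsGRW μ X) (h : ℕ) (hh : 1 ≤ h) :
    μ {ω | ∃ n, (h : ℤ) ≤ |(X n ω).2| ∧ ∀ m, 1 ≤ m → m ≤ n → (X m ω).2 ≠ 0} ≤
        ENNReal.ofReal (64 * (h : ℝ) ^ (-(1 / 21 : ℝ))) ∧
      μ {ω | ∃ n, ((h : ℤ) ≤ |(X n ω).1| ∨ (h : ℤ) ≤ |(X n ω).2|) ∧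
        ∀ m, 1 ≤ m → m ≤ n → (X m ω).2 ≠ 0} ≤
        ENNReal.ofReal (73000 * (h : ℝ) ^ (-(1 / 126 : ℝ))) :=
  ⟨Pool.Agent.GRP.row_poly hX h hh, Pool.Agent.GRP.diam_poly hX h hh⟩

end Pool.Agent.Results.MP_ce48ae_pr.ExcursionTail
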